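import Pool.Agent.Helper57.Cut.Main
import Pool.Agent.Helper21.Cut.Final
import Pool.Agent.Helper17.Chart.Main
import Pool.Agent.Helper39.Cut.LC
import Pool.Agent.Helper77.Cut.Realise

/-!
# Contracting a curve whose multiple contracts with bounded length (MP_86dbc7_gt, Q1)

For every orientable Riemannian surface `M` (any continuous Riemannian metric; no compactness,
completeness or connectedness is assumed), every closed curve `γ`, every `m ≥ 1` and every `L`:
if `m γ` can be contracted through curves of length less than `L`, then so can `γ`.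
-/

set_option autoImplicit false

open Set Bundle
open scoped Manifold ContDiff ENNReal unitInterval

namespace Pool.Agent.Results.MP_86dbc7_gt.MultipleContraction

/-- The length of a closed curve `c`, a map from the circle `ℝ / ℤ` to `M`: its total variation
over one period. -/
noncomputable def loopLength {M : Type*} [PseudoEMetricSpace M] (c : AddCircle (1 : ℝ) → M) :
    ℝ≥0∞ :=
  eVariationOn (fun t : ℝ => c (t : AddCircle (1 : ℝ))) (Icc 0 1)

/-- The closed curve `c` can be contracted through curves of length less than `L`: there is a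
homotopy `H` from `c` to a constant curve, all of whose curves `H (t, ·)` have length `< L`. -/
def ContractsBelow {M : Type*} [PseudoEMetricSpace M] (L : ℝ) (c : C(AddCircle (1 : ℝ), M)) :
    Prop :=
  ∃ H : C(I × AddCircle (1 : ℝ), M), (∀ s, H (0, s) = c s) ∧ (∃ x, ∀ s, H (1, s) = x) ∧
    ∀ t, loopLength (fun s => H (t, s)) < ENNReal.ofReal L

/-- The closed curve `m c`, which runs `m` times in succession along `c`. -/
def multiple {M : Type*} [TopologicalSpace M] (m : ℕ) (c : C(AddCircle (1 : ℝ), M)) :
    C(AddCircle (1 : ℝ), M) :=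
  ⟨fun s => c (m • s), c.continuous.comp (continuous_const_smul m)⟩

/-- A manifold modelled on the plane is orientable: it has an atlas of smooth charts all of whose
coordinate changes have positive Jacobian determinant. -/
def Orientable (M : Type*) [TopologicalSpace M] [ChartedSpace (EuclideanSpace ℝ (Fin 2)) M] :
    Prop :=
  ∃ A : Set (OpenPartialHomeomorph M (EuclideanSpace ℝ (Fin 2))),
    A ⊆ IsManifold.maximalAtlas (𝓡 2) ∞ M ∧ (∀ x, ∃ e ∈ A, x ∈ e.source) ∧
    ∀ e ∈ A, ∀ e' ∈ A, ∀ y ∈ (e.symm ≫ₕ e').source, 0 < (fderiv ℝ (e.symm ≫ₕ e') y).det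

universe u

/-- **Full positive answer to Q1.** Let `M` be an orientable Riemannian manifold of dimension 2,
`γ` a closed curve on `M`, `m ≥ 1` and `L` real. If `m γ` can be contracted through curves of
length less than `L`, then so can `γ`. -/
theorem result {M : Type u} [EMetricSpace M] [ChartedSpace (EuclideanSpace ℝ (Fin 2)) M]
    [IsManifold (𝓡 2) ∞ M] [RiemannianBundle (fun x : M => TangentSpace (𝓡 2) x)]
    [IsContinuousRiemannianBundle (EuclideanSpace ℝ (Fin 2)) (fun x : M => TangentSpace (𝓡 2) x)]
    [IsRiemannianManifold (𝓡 2) M] (hM : Orientable M) (γ : C(AddCircle (1 : ℝ), M)) (m : ℕ)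
    (hm : 1 ≤ m) (L : ℝ) (h : ContractsBelow L (multiple m γ)) : ContractsBelow L γ :=
  Pool.Agent.Helper57.Cut.main_of
    (fun X _ _ hδ C p n T hp hn z h1 h2 h3 h4 L ρ hρ h5 =>
      Pool.Agent.Helper21.Cut.discrete hδ C p n T hp hn z h1 h2 h3 h4 L ρ hρ h5)
    Pool.Agent.Helper77.Cut.realise_stmt Pool.Agent.Helper39.Cut.tame_stmt
    Pool.Agent.Helper17.chart_stmt hM γ m hm L h

end Pool.Agent.Results.MP_86dbc7_gt.MultipleContraction
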